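import Mathlib

namespace Run7.h6.SqfreePow

open Finset Filter

/-- The product of the odd primes up to `y`. -/
def oddPrimorial (y : ℕ) : ℕ :=
  ∏ p ∈ (Finset.range (y + 1)).filter (fun p => p.Prime ∧ p ≠ 2), p

lemma oddPrimorial_le (y : ℕ) : oddPrimorial y ≤ 4 ^ y := by
  refine le_trans ?_ (primorial_le_four_pow y)
  unfold oddPrimorial primorial
  apply Finset.prod_le_prod_of_subset_of_one_le'
  · intro p hp
    simp only [Finset.mem_filter] at hp ⊢
    exact ⟨hp.1, hp.2.1⟩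
  · intro p hp _
    exact (Finset.mem_filter.1 hp).2.one_le

lemma oddPrimorial_pos (y : ℕ) : 0 < oddPrimorial y := by
  unfold oddPrimorial
  exact Finset.prod_pos fun p hp => (Finset.mem_filter.1 hp).2.1.pos

lemma dvd_oddPrimorial {y p : ℕ} (hp : p.Prime) (h2 : p ≠ 2) (hpy : p ≤ y) :
    p ∣ oddPrimorial y := by
  unfold oddPrimorial
  apply Finset.dvd_prod_of_mem
  simp only [Finset.mem_filter, Finset.mem_range]
  exact ⟨by omega, hp, h2⟩

lemma odd_oddPrimorial (y : ℕ) : Odd (oddPrimorial y) := by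
  unfold oddPrimorial
  apply Finset.prod_induction _ (fun n => Odd n)
  · intro a b ha hb; exact ha.mul hb
  · exact odd_one
  · intro p hp
    have := (Finset.mem_filter.1 hp).2
    exact this.1.odd_of_ne_two this.2

lemma coprime_oddPrimorial {y p : ℕ} (hp : p.Prime) (hpy : y < p) :
    Nat.Coprime p (oddPrimorial y) := by
  unfold oddPrimorial
  apply Nat.Coprime.prod_right
  intro q hq
  simp only [Finset.mem_filter, Finset.mem_range] at hq
  exact (Nat.coprime_primes hp hq.2.1).2 (by omega)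

/-- Eventually `π(n) ≤ n / 56`. -/
lemma eventually_primeCounting_le_div :
    ∀ᶠ n : ℕ in atTop, (Nat.primeCounting n : ℝ) ≤ (1 / 56) * n := by
  have h1 := Chebyshev.eventually_primeCounting_le (ε := 1) one_pos
  have h2 : ∀ᶠ x : ℝ in atTop, 56 * (Real.log 4 + 1) ≤ Real.log x :=
    Real.tendsto_log_atTop.eventually_ge_atTop _
  have h3 : ∀ᶠ x : ℝ in atTop, (0 : ℝ) < x := eventually_gt_atTop 0
  have h := (tendsto_natCast_atTop_atTop (R := ℝ)).eventually (h1.and (h2.and h3))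
  filter_upwards [h] with n hn
  obtain ⟨ha, hb, hc⟩ := hn
  rw [Nat.floor_natCast] at ha
  refine ha.trans ?_
  have hl4 : 0 < Real.log 4 + 1 := by
    have := Real.log_pos (show (1 : ℝ) < 4 by norm_num)
    linarith
  have hlog : 0 < Real.log n := by nlinarith
  rw [div_le_iff₀ hlog]
  nlinarith

/-- Dyadic bound for the sum of `1/p²`. -/
lemma sum_dyadic (y : ℕ) (hy : 0 < y)
    (h : ∀ n, y ≤ n → (Nat.primeCounting n : ℝ) ≤ (1 / 56) * n) (J : ℕ) :
    ∑ p ∈ (Finset.Ioc y (2 ^ J * y)).filter Nat.Prime, (1 : ℝ) / (p : ℝ) ^ 2 ≤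
      (1 / 14) / y * (1 - (1 / 2) ^ J) := by
  have hyR : (0 : ℝ) < y := by exact_mod_cast hy
  induction J with
  | zero => simp
  | succ J ih =>
    have hle : 2 ^ J * y ≤ 2 ^ (J + 1) * y := by
      rw [pow_succ]; nlinarith [Nat.pos_of_ne_zero (pow_ne_zero J (two_ne_zero (α := ℕ)))]
    have hle0 : y ≤ 2 ^ J * y := by
      have : 1 ≤ 2 ^ J := Nat.one_le_two_pow
      nlinarith
    have hsplit : (Finset.Ioc y (2 ^ (J + 1) * y)).filter Nat.Prime =
        (Finset.Ioc y (2 ^ J * y)).filter Nat.Prime ∪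
        (Finset.Ioc (2 ^ J * y) (2 ^ (J + 1) * y)).filter Nat.Prime := by
      rw [← Finset.filter_union, Finset.Ioc_union_Ioc_eq_Ioc hle0 hle]
    have hdisj : Disjoint ((Finset.Ioc y (2 ^ J * y)).filter Nat.Prime)
        ((Finset.Ioc (2 ^ J * y) (2 ^ (J + 1) * y)).filter Nat.Prime) := by
      apply Finset.disjoint_filter_filter
      rw [Finset.disjoint_left]
      intro a ha hb
      simp only [Finset.mem_Ioc] at ha hb
      omega
    rw [hsplit, Finset.sum_union hdisj]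
    have hblock : ∑ p ∈ (Finset.Ioc (2 ^ J * y) (2 ^ (J + 1) * y)).filter Nat.Prime,
        (1 : ℝ) / (p : ℝ) ^ 2 ≤ (1 / 28) / y * (1 / 2) ^ J := by
      have hposJ : (0 : ℝ) < 2 ^ J * y := by positivity
      have h1 : ∑ p ∈ (Finset.Ioc (2 ^ J * y) (2 ^ (J + 1) * y)).filter Nat.Prime,
          (1 : ℝ) / (p : ℝ) ^ 2 ≤
          ∑ p ∈ (Finset.Ioc (2 ^ J * y) (2 ^ (J + 1) * y)).filter Nat.Prime,
            1 / ((2 : ℝ) ^ J * y) ^ 2 := by
        apply Finset.sum_le_sum
        intro p hp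
        simp only [Finset.mem_filter, Finset.mem_Ioc] at hp
        have : ((2 : ℝ) ^ J * y) ≤ p := by
          have := hp.1.1.le
          exact_mod_cast this
        apply one_div_le_one_div_of_le (by positivity)
        gcongr
      refine h1.trans ?_
      rw [Finset.sum_const, nsmul_eq_mul]
      have hcard : (((Finset.Ioc (2 ^ J * y) (2 ^ (J + 1) * y)).filter Nat.Prime).card : ℝ) ≤
          (1 / 56) * ((2 ^ (J + 1) * y : ℕ) : ℝ) := by
        refine le_trans ?_ (h _ (hle0.trans hle))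
        have : ((Finset.Ioc (2 ^ J * y) (2 ^ (J + 1) * y)).filter Nat.Prime).card ≤
            Nat.primeCounting (2 ^ (J + 1) * y) := by
          rw [Nat.primeCounting, Nat.primeCounting', Nat.count_eq_card_filter_range]
          apply Finset.card_le_card
          intro p hp
          simp only [Finset.mem_filter, Finset.mem_Ioc, Finset.mem_range] at hp ⊢
          exact ⟨by omega, hp.2⟩
        exact_mod_cast this
      calc _ ≤ ((1 / 56) * ((2 ^ (J + 1) * y : ℕ) : ℝ)) * (1 / ((2 : ℝ) ^ J * y) ^ 2) := by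
            gcongr
        _ = (1 / 28) / y * (1 / 2) ^ J := by
            push_cast
            rw [pow_succ, one_div_pow]
            field_simp
            norm_num
    calc _ ≤ (1 / 14) / y * (1 - (1 / 2) ^ J) + (1 / 28) / y * (1 / 2 : ℝ) ^ J :=
          add_le_add ih hblock
      _ = (1 / 14) / y * (1 - (1 / 2) ^ (J + 1)) := by
          rw [pow_succ]; ring

lemma sum_inv_sq_le (y : ℕ) (hy : 0 < y)
    (h : ∀ n, y ≤ n → (Nat.primeCounting n : ℝ) ≤ (1 / 56) * n) (Z : ℕ) :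
    ∑ p ∈ (Finset.Ioc y Z).filter Nat.Prime, (1 : ℝ) / (p : ℝ) ^ 2 ≤ (1 / 14) / y := by
  have hyR : (0 : ℝ) < y := by exact_mod_cast hy
  have hZ : Z ≤ 2 ^ Z * y := by
    have := Nat.lt_two_pow_self (n := Z)
    nlinarith
  calc _ ≤ ∑ p ∈ (Finset.Ioc y (2 ^ Z * y)).filter Nat.Prime, (1 : ℝ) / (p : ℝ) ^ 2 := by
        apply Finset.sum_le_sum_of_subset_of_nonneg
        · intro p hp
          simp only [Finset.mem_filter, Finset.mem_Ioc] at hp ⊢
          exact ⟨⟨hp.1.1, hp.1.2.trans hZ⟩, hp.2⟩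
        · intro p _ _; positivity
    _ ≤ (1 / 14) / y * (1 - (1 / 2) ^ Z) := sum_dyadic y hy h Z
    _ ≤ (1 / 14) / y := by
        have h1 : (0 : ℝ) ≤ (1 / 14) / y := by positivity
        have h2 : (0 : ℝ) ≤ (1 / 2 : ℝ) ^ Z := by positivity
        nlinarith

/-- The number of `t < M` for which `p²` divides `P (2t+1) - 2^k`. -/
lemma card_bad (P p k M : ℕ) (hp : p.Prime) (h2 : p ≠ 2) (hP : Nat.Coprime p P) :
    ((Finset.range M).filter
      (fun t => 2 ^ k < P * (2 * t + 1) ∧ p ^ 2 ∣ P * (2 * t + 1) - 2 ^ k)).card ≤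
      M / p ^ 2 + 1 := by
  by_cases hne : ((Finset.range M).filter
      (fun t => 2 ^ k < P * (2 * t + 1) ∧ p ^ 2 ∣ P * (2 * t + 1) - 2 ^ k)).Nonempty
  swap
  · rw [Finset.not_nonempty_iff_eq_empty] at hne
    rw [hne]; simp
  obtain ⟨t₀, ht₀⟩ := hne
  simp only [Finset.mem_filter, Finset.mem_range] at ht₀
  have hpos : 0 < p ^ 2 := pow_pos hp.pos 2
  calc _ ≤ ((Finset.range M).filter (fun t => t ≡ t₀ [MOD p ^ 2])).card := by
        apply Finset.card_le_card
        intro t ht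
        simp only [Finset.mem_filter, Finset.mem_range] at ht ⊢
        refine ⟨ht.1, ?_⟩
        have ha : (P * (2 * t + 1)) ≡ 2 ^ k [MOD p ^ 2] :=
          ((Nat.modEq_iff_dvd' ht.2.1.le).2 ht.2.2).symm
        have hb : (P * (2 * t₀ + 1)) ≡ 2 ^ k [MOD p ^ 2] :=
          ((Nat.modEq_iff_dvd' ht₀.2.1.le).2 ht₀.2.2).symm
        have hc : (P * (2 * t + 1)) ≡ (P * (2 * t₀ + 1)) [MOD p ^ 2] := ha.trans hb.symm
        have hcop : Nat.gcd (p ^ 2) P = 1 := Nat.Coprime.pow_left 2 hP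
        have hd : (2 * t + 1) ≡ (2 * t₀ + 1) [MOD p ^ 2] :=
          Nat.ModEq.cancel_left_of_coprime hcop hc
        have he : (2 * t) ≡ (2 * t₀) [MOD p ^ 2] := Nat.ModEq.add_right_cancel' 1 hd
        have hcop2 : Nat.gcd (p ^ 2) 2 = 1 :=
          Nat.Coprime.pow_left 2 ((Nat.coprime_primes hp Nat.prime_two).2 h2)
        exact Nat.ModEq.cancel_left_of_coprime hcop2 he
    _ = Nat.count (fun t => t ≡ t₀ [MOD p ^ 2]) M := by
        rw [Nat.count_eq_card_filter_range]
    _ ≤ M / p ^ 2 + 1 := by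
        rw [Nat.count_modEq_card _ hpos]
        split_ifs <;> omega

/-- For all large `y` some odd multiple `P (2t+1)` of the odd primorial of `y` is good. -/
lemma exists_good (y : ℕ) (hy : 9 ≤ y)
    (h : ∀ n, y ≤ n → (Nat.primeCounting n : ℝ) ≤ (1 / 56) * n) :
    ∃ t : ℕ, ∀ k : ℕ, 1 ≤ k → 2 ^ k < oddPrimorial y * (2 * t + 1) →
      Squarefree (oddPrimorial y * (2 * t + 1) - 2 ^ k) := by
  set P := oddPrimorial y with hPdef
  set M := 2 ^ (4 * y) with hM
  set K := 6 * y + 1 with hK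
  set Z := 2 ^ (3 * y + 1) with hZ
  have hPle : P ≤ 2 ^ (2 * y) := by
    calc P ≤ 4 ^ y := oddPrimorial_le y
      _ = 2 ^ (2 * y) := by rw [pow_mul]; norm_num
  by_contra hcon
  push Not at hcon
  -- every `t < M` is bad for some pair `(p, k)`
  let bad : ℕ × ℕ → Finset ℕ := fun q => (Finset.range M).filter
      (fun t => 2 ^ q.2 < P * (2 * t + 1) ∧ q.1 ^ 2 ∣ P * (2 * t + 1) - 2 ^ q.2)
  let I : Finset (ℕ × ℕ) := ((Finset.Ioc y Z).filter Nat.Prime) ×ˢ (Finset.range K)
  have hcover : Finset.range M ⊆ I.biUnion bad := by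
    intro t ht
    obtain ⟨k, hk1, hk2, hk3⟩ := hcon t
    rw [Nat.squarefree_iff_prime_squarefree] at hk3
    push Not at hk3
    obtain ⟨p, hp, hpd⟩ := hk3
    have htM : t < M := Finset.mem_range.1 ht
    have hnlt : P * (2 * t + 1) < 2 ^ (6 * y + 1) := by
      calc P * (2 * t + 1) < P * (2 * M) :=
            Nat.mul_lt_mul_of_pos_left (by omega) (oddPrimorial_pos y)
        _ ≤ 2 ^ (2 * y) * (2 * 2 ^ (4 * y)) := Nat.mul_le_mul_right _ hPle
        _ = 2 ^ (6 * y + 1) := by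
            rw [← pow_succ', ← pow_add]; congr 1; ring
    have hsub : 0 < P * (2 * t + 1) - 2 ^ k := by omega
    have hodd : Odd (P * (2 * t + 1) - 2 ^ k) := by
      have h1 : Odd (P * (2 * t + 1)) := (odd_oddPrimorial y).mul (by exact ⟨t, rfl⟩)
      have h2 : Even (2 ^ k) := (Nat.even_pow.2 ⟨even_two, by omega⟩)
      exact Nat.Odd.sub_even hk2.le h1 h2
    have hp2 : p ≠ 2 := by
      rintro rfl
      have : 2 ∣ P * (2 * t + 1) - 2 ^ k := dvd_trans (Dvd.intro 2 rfl) hpd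
      exact (Nat.not_even_iff_odd.2 hodd) (even_iff_two_dvd.2 this)
    have hpy : y < p := by
      by_contra hle
      push Not at hle
      have hd1 : p ∣ P * (2 * t + 1) := (dvd_oddPrimorial hp hp2 hle).mul_right _
      have hd2 : p ∣ P * (2 * t + 1) - 2 ^ k := dvd_trans (Dvd.intro p rfl) hpd
      have hd3 : p ∣ 2 ^ k := by
        have := (Nat.dvd_sub_iff_right hk2.le hd1).1 hd2
        exact this
      have := hp.dvd_of_dvd_pow hd3
      exact hp2 ((Nat.prime_dvd_prime_iff_eq hp Nat.prime_two).1 this)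
    have hpZ : p ≤ Z := by
      by_contra hlt
      push Not at hlt
      have h1 : p * p ≤ P * (2 * t + 1) - 2 ^ k := Nat.le_of_dvd hsub hpd
      have h2 : Z * Z < p * p := Nat.mul_lt_mul'' hlt hlt
      have h3 : Z * Z = 2 ^ (6 * y + 2) := by
        rw [hZ, ← pow_add]; congr 1; ring
      have h4 : 2 ^ (6 * y + 2) = 2 * 2 ^ (6 * y + 1) := by rw [pow_succ']
      have h5 : P * (2 * t + 1) - 2 ^ k < 2 ^ (6 * y + 1) :=
        lt_of_le_of_lt (Nat.sub_le _ _) hnlt
      have h6 : Z * Z < 2 ^ (6 * y + 1) := h2.trans_le (h1.trans h5.le)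
      rw [h3, h4] at h6
      omega
    have hkK : k < K := by
      have : 2 ^ k < 2 ^ (6 * y + 1) := hk2.trans hnlt
      exact (Nat.pow_lt_pow_iff_right (by norm_num)).1 this
    rw [Finset.mem_biUnion]
    refine ⟨(p, k), ?_, ?_⟩
    · simp only [I, Finset.mem_product, Finset.mem_filter, Finset.mem_Ioc, Finset.mem_range]
      exact ⟨⟨⟨hpy, hpZ⟩, hp⟩, hkK⟩
    · simp only [bad, Finset.mem_filter, Finset.mem_range]
      refine ⟨htM, hk2, ?_⟩
      rw [sq]; exact hpd
  have hcard : M ≤ ∑ q ∈ I, (M / q.1 ^ 2 + 1) := by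
    calc M = (Finset.range M).card := (Finset.card_range M).symm
      _ ≤ (I.biUnion bad).card := Finset.card_le_card hcover
      _ ≤ ∑ q ∈ I, (bad q).card := Finset.card_biUnion_le
      _ ≤ ∑ q ∈ I, (M / q.1 ^ 2 + 1) := by
          apply Finset.sum_le_sum
          intro q hq
          simp only [I, Finset.mem_product, Finset.mem_filter, Finset.mem_Ioc,
            Finset.mem_range] at hq
          have hq2 : q.1 ≠ 2 := by omega
          exact card_bad P q.1 q.2 M hq.1.2 hq2 (coprime_oddPrimorial hq.1.2 hq.1.1.1)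
  -- real estimate
  have hyR : (0 : ℝ) < y := by
    have : 0 < y := by omega
    exact_mod_cast this
  have hcardR : (M : ℝ) ≤ ∑ q ∈ I, ((M : ℝ) * (1 / (q.1 : ℝ) ^ 2) + 1) := by
    calc (M : ℝ) ≤ ((∑ q ∈ I, (M / q.1 ^ 2 + 1) : ℕ) : ℝ) := by exact_mod_cast hcard
      _ = ∑ q ∈ I, (((M / q.1 ^ 2 : ℕ) : ℝ) + 1) := by push_cast; rfl
      _ ≤ ∑ q ∈ I, ((M : ℝ) * (1 / (q.1 : ℝ) ^ 2) + 1) := by
          apply Finset.sum_le_sum
          intro q _
          have := @Nat.cast_div_le ℝ _ _ _ M (q.1 ^ 2)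
          push_cast at this
          rw [mul_one_div]
          linarith
  have hsum : ∑ q ∈ I, ((M : ℝ) * (1 / (q.1 : ℝ) ^ 2) + 1) =
      K * (M * ∑ p ∈ (Finset.Ioc y Z).filter Nat.Prime, (1 : ℝ) / (p : ℝ) ^ 2) +
      K * (((Finset.Ioc y Z).filter Nat.Prime).card : ℝ) := by
    simp only [I]
    rw [Finset.sum_product]
    simp only [Finset.sum_const, Finset.card_range, nsmul_eq_mul]
    rw [← Finset.mul_sum, Finset.sum_add_distrib, ← Finset.mul_sum, Finset.sum_const,
      nsmul_eq_mul, mul_one, mul_add]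
  have hcardZ : (((Finset.Ioc y Z).filter Nat.Prime).card : ℝ) ≤ Z := by
    have : ((Finset.Ioc y Z).filter Nat.Prime).card ≤ Z := by
      refine (Finset.card_filter_le _ _).trans ?_
      rw [Nat.card_Ioc]; exact Nat.sub_le _ _
    exact_mod_cast this
  have hS := sum_inv_sq_le y (by omega) h Z
  have hMpos : (0 : ℝ) < M := by rw [hM]; positivity
  have hKR : (K : ℝ) ≤ 7 * y := by
    have : K ≤ 7 * y := by omega
    exact_mod_cast this
  have hfirst : (K : ℝ) * (M * ∑ p ∈ (Finset.Ioc y Z).filter Nat.Prime, (1 : ℝ) / (p : ℝ) ^ 2) ≤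
      M / 2 := by
    calc (K : ℝ) * (M * ∑ p ∈ (Finset.Ioc y Z).filter Nat.Prime, (1 : ℝ) / (p : ℝ) ^ 2)
        ≤ (7 * y) * (M * ((1 / 14) / y)) := by
          have h0 : (0 : ℝ) ≤ ∑ p ∈ (Finset.Ioc y Z).filter Nat.Prime, (1 : ℝ) / (p : ℝ) ^ 2 :=
            Finset.sum_nonneg fun p _ => by positivity
          gcongr
      _ = M / 2 := by field_simp; norm_num
  have hsecond : (K : ℝ) * Z ≤ M / 4 := by
    have hpow : ∀ n : ℕ, 9 ≤ n → 8 * (6 * n + 1) ≤ 2 ^ n := by
      intro n hn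
      induction n, hn using Nat.le_induction with
      | base => norm_num
      | succ n hn ih => rw [pow_succ]; omega
    have h1 : 4 * (K * Z) ≤ M := by
      have h2 := hpow y hy
      have h3 : 2 ^ (4 * y) = 2 ^ y * 2 ^ (3 * y) := by rw [← pow_add]; congr 1; ring
      rw [hM, hZ, hK, h3, pow_succ]
      nlinarith [Nat.one_le_two_pow (n := 3 * y)]
    have h2 : (4 : ℝ) * (K * Z) ≤ M := by exact_mod_cast h1
    linarith
  have hKpos : (0 : ℝ) ≤ K := by positivity
  have : (M : ℝ) ≤ M / 2 + M / 4 := by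
    calc (M : ℝ) ≤ _ := hcardR
      _ = _ := hsum
      _ ≤ M / 2 + K * Z := add_le_add hfirst (mul_le_mul_of_nonneg_left hcardZ hKpos)
      _ ≤ M / 2 + M / 4 := by linarith
  linarith

/-- There are infinitely many `n ≥ 3` such that `n - 2^k` is squarefree whenever
`k ≥ 1` and `2^k < n`. -/
theorem infinite_good :
    {n : ℕ | 3 ≤ n ∧ ∀ k : ℕ, 1 ≤ k → 2 ^ k < n → Squarefree (n - 2 ^ k)}.Infinite := by
  rw [Set.infinite_iff_exists_gt]
  intro a
  obtain ⟨y₀, hy₀⟩ := Filter.eventually_atTop.1 eventually_primeCounting_le_div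
  -- a large prime
  obtain ⟨p, hpa, hp⟩ := Nat.exists_infinite_primes (a + 3)
  set y := max (max y₀ 9) p with hy
  have hyy₀ : y₀ ≤ y := by omega
  have hy9 : 9 ≤ y := by omega
  have hpy : p ≤ y := by omega
  obtain ⟨t, ht⟩ := exists_good y hy9 (fun n hn => hy₀ n (hyy₀.trans hn))
  have hge : p ≤ oddPrimorial y * (2 * t + 1) := by
    have h1 : p ∣ oddPrimorial y := dvd_oddPrimorial hp (by omega) hpy
    have h2 := Nat.le_of_dvd (oddPrimorial_pos y) h1
    calc p ≤ oddPrimorial y := h2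
      _ ≤ oddPrimorial y * (2 * t + 1) := Nat.le_mul_of_pos_right _ (by omega)
  exact ⟨oddPrimorial y * (2 * t + 1), ⟨by omega, ht⟩, by omega⟩

end Run7.h6.SqfreePow
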